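import Pool.Agent.Work.MP_e214ac_gt.Stmt

/-!
# Algebraic setting (definitions, fixed file)

`B` is a commutative `ℝ`-algebra (later: smooth functions on an open set), `J` the finite set of
coordinate indices.
-/

set_option autoImplicit false

open scoped BigOperators

namespace E214

open TrivSqZeroExt

variable {J : Type} [Fintype J] [DecidableEq J] {B : Type} [CommRing B] [Algebra ℝ B]

/-- The algebra of differential operators generated by the multiplications and the derivations
`E j`. -/
def DOalg (E : J → Derivation ℝ B B) : Subalgebra ℝ (Module.End ℝ B) :=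
  Algebra.adjoin ℝ (Set.range (fun c : B => (LinearMap.mulLeft ℝ c : Module.End ℝ B)) ∪
    Set.range fun j => ((E j : B →ₗ[ℝ] B) : Module.End ℝ B))

/-- A coordinate system `ψ` together with its commuting partial derivatives `E`. -/
structure Frame (J : Type) [Fintype J] [DecidableEq J] (B : Type) [CommRing B] [Algebra ℝ B] where
  E : J → Derivation ℝ B B
  ψ : J → B
  hEψ : ∀ i j, E i (ψ j) = if i = j then 1 else 0
  hEE : ∀ i j f, E i (E j f) = E j (E i f)

/-- An affine coordinate system `x` with its partial derivatives `d`, and a bivector `P` given by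
its components in these coordinates. -/
structure AffP (J : Type) [Fintype J] [DecidableEq J] (B : Type) [CommRing B] [Algebra ℝ B] where
  d : J → Derivation ℝ B B
  x : J → B
  P : J → J → B
  hdx : ∀ a b, d a (x b) = if a = b then 1 else 0
  hdd : ∀ a b f, d a (d b f) = d b (d a f)
  hanti : ∀ a b, P a b = - P b a

/-- The frame `(x, d)`. -/
def AffP.toFrame (S : AffP J B) : Frame J B := ⟨S.d, S.x, S.hdx, S.hdd⟩

/-- `v` is in the span of the `d a` (a vector field). -/
def AffP.IsVF (S : AffP J B) (v : Derivation ℝ B B) : Prop :=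
  ∀ f, v f = ∑ a, v (S.x a) * S.d a f

/-- the bracket of `P` -/
def AffP.br (S : AffP J B) (f g : B) : B := ∑ a, ∑ b, S.P a b * S.d a f * S.d b g

/-- the Hamiltonian vector field `{f, ·}` -/
noncomputable def AffP.ham (S : AffP J B) (f : B) : Derivation ℝ B B :=
  ∑ a, ∑ b, (S.P a b * S.d a f) • S.d b

/-- the Lie derivative of the bivector `q` (as a biderivation) along `v` -/
def lieB (v : B → B) (q : B → B → B) (f g : B) : B := v (q f g) - q (v f) g - q f (v g)

variable {n : ℕ}

/-- the components of `F(P)` in the affine coordinates `x` -/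
noncomputable def AffP.Qc (S : AffP J B) (F : List (ℝ × Diagram n)) (a b : J) : B :=
  evalHom F (fun c f => S.d c f) S.P a b

/-- `F(P)` as a biderivation -/
noncomputable def AffP.Q (S : AffP J B) (F : List (ℝ × Diagram n)) (f g : B) : B :=
  ∑ a, ∑ b, S.Qc F a b * S.d a f * S.d b g

/-- the Schouten bracket of the biderivations `p`, `q`, as a triderivation -/
def cyc (p q : B → B → B) (f g h : B) : B :=
  p (q f g) h + p (q g h) f + p (q h f) g + q (p f g) h + q (p g h) f + q (p h f) g

/-! ### dual numbers: the affine coordinates `x + ε ζ` -/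

/-- The underlying function of `AffP.dualDer`. -/
noncomputable def AffP.dualFun (S : AffP J B) (ζ : J → B) (a : J) (u : DualNumber B) :
    DualNumber B :=
  inl (S.d a u.fst) + inr (S.d a u.snd - ∑ b, S.d a (ζ b) * S.d b u.fst)

theorem AffP.dualFun_fst (S : AffP J B) (ζ : J → B) (a : J) (u : DualNumber B) :
    (S.dualFun ζ a u).fst = S.d a u.fst := by
  simp [AffP.dualFun]

theorem AffP.dualFun_snd (S : AffP J B) (ζ : J → B) (a : J) (u : DualNumber B) :
    (S.dualFun ζ a u).snd = S.d a u.snd - ∑ b, S.d a (ζ b) * S.d b u.fst := by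
  simp [AffP.dualFun]

/-- The partial derivative `∂_a - ε ∑_b (∂_a ζ_b) ∂_b` of the coordinate system `x + ε ζ`. -/
noncomputable def AffP.dualDer (S : AffP J B) (ζ : J → B) (a : J) :
    Derivation ℝ (DualNumber B) (DualNumber B) :=
  Derivation.mk'
    { toFun := S.dualFun ζ a
      map_add' := fun u v => by
        refine TrivSqZeroExt.ext ?_ ?_
        · rw [fst_add, S.dualFun_fst, S.dualFun_fst, S.dualFun_fst, fst_add, map_add]
        · rw [snd_add, S.dualFun_snd, S.dualFun_snd, S.dualFun_snd, snd_add, fst_add, map_add]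
          simp only [map_add, mul_add, Finset.sum_add_distrib]
          ring
      map_smul' := fun c u => by
        refine TrivSqZeroExt.ext ?_ ?_
        · rw [RingHom.id_apply, fst_smul, S.dualFun_fst, S.dualFun_fst, fst_smul,
            Derivation.map_smul]
        · rw [RingHom.id_apply, snd_smul, S.dualFun_snd, S.dualFun_snd, snd_smul, fst_smul,
            Derivation.map_smul, smul_sub, Finset.smul_sum]
          simp only [Derivation.map_smul, mul_smul_comm] }
    (fun u v => by
      refine TrivSqZeroExt.ext ?_ ?_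
      · simp only [LinearMap.coe_mk, AddHom.coe_mk, smul_eq_mul, S.dualFun_fst, fst_mul, fst_add,
          Derivation.leibniz]
      · simp only [LinearMap.coe_mk, AddHom.coe_mk, smul_eq_mul, S.dualFun_fst, S.dualFun_snd,
          fst_mul, DualNumber.snd_mul, snd_add, map_add, Derivation.leibniz, mul_add,
          Finset.sum_add_distrib, mul_sub, Finset.mul_sum]
        have h1 : ∑ i, S.d a (ζ i) * (u.fst * S.d i v.fst)
            = ∑ i, u.fst * (S.d a (ζ i) * S.d i v.fst) :=
          Finset.sum_congr rfl fun i _ => by ring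
        have h2 : ∑ i, S.d a (ζ i) * (v.fst * S.d i u.fst)
            = ∑ i, v.fst * (S.d a (ζ i) * S.d i u.fst) :=
          Finset.sum_congr rfl fun i _ => by ring
        rw [h1, h2]
        ring)

theorem AffP.dualDer_fst (S : AffP J B) (ζ : J → B) (a : J) (u : DualNumber B) :
    (S.dualDer ζ a u).fst = S.d a u.fst := S.dualFun_fst ζ a u

theorem AffP.dualDer_snd (S : AffP J B) (ζ : J → B) (a : J) (u : DualNumber B) :
    (S.dualDer ζ a u).snd = S.d a u.snd - ∑ b, S.d a (ζ b) * S.d b u.fst :=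
  S.dualFun_snd ζ a u

theorem AffP.br_swap (S : AffP J B) (f g : B) : S.br f g = - S.br g f := by
  unfold AffP.br
  rw [Finset.sum_comm, ← Finset.sum_neg_distrib]
  refine Finset.sum_congr rfl fun a _ => ?_
  rw [← Finset.sum_neg_distrib]
  refine Finset.sum_congr rfl fun b _ => ?_
  rw [S.hanti b a]
  ring

/-- The affine structure over `B[ε]` with the coordinates `x + ε ζ` and the same bivector. -/
noncomputable def AffP.dual (S : AffP J B) (ζ : J → B) : AffP J (DualNumber B) where
  d := S.dualDer ζ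
  x a := inl (S.x a) + inr (ζ a)
  P a b := inl (S.P a b) + inr (S.br (ζ a) (S.x b) + S.br (S.x a) (ζ b))
  hdx a b := by
    refine TrivSqZeroExt.ext ?_ ?_
    · rw [S.dualDer_fst]
      split_ifs with h <;> simp [S.hdx, h]
    · rw [S.dualDer_snd]
      split_ifs with h <;> simp [S.hdx, h]
  hdd a b f := by
    refine TrivSqZeroExt.ext ?_ ?_
    · simp only [S.dualDer_fst, S.hdd a b]
    · simp only [S.dualDer_fst, S.dualDer_snd, map_sub, map_sum, Derivation.leibniz, smul_eq_mul,
        Finset.sum_add_distrib]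
      rw [S.hdd a b f.snd]
      have h1 : ∑ i, S.d b (ζ i) * S.d a (S.d i f.fst) = ∑ i, S.d b (ζ i) * S.d i (S.d a f.fst) :=
        Finset.sum_congr rfl fun i _ => by rw [S.hdd a i]
      have h2 : ∑ i, S.d a (ζ i) * S.d b (S.d i f.fst) = ∑ i, S.d a (ζ i) * S.d i (S.d b f.fst) :=
        Finset.sum_congr rfl fun i _ => by rw [S.hdd b i]
      have h3 : ∑ i, S.d i f.fst * S.d a (S.d b (ζ i)) = ∑ i, S.d i f.fst * S.d b (S.d a (ζ i)) :=
        Finset.sum_congr rfl fun i _ => by rw [S.hdd a b]
      rw [h1, h2, h3]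
      ring
  hanti a b := by
    refine TrivSqZeroExt.ext ?_ ?_
    · simp [S.hanti a b]
    · simp only [snd_add, snd_inl, snd_inr, zero_add, snd_neg]
      rw [S.br_swap (S.x b) (ζ a), S.br_swap (ζ b) (S.x a)]
      ring

/-- The variation `𝒟(v)` of `F(P)` (as a biderivation) when the affine coordinates `x` move with
velocity `v x` and the bivector is fixed. -/
noncomputable def AffP.D (S : AffP J B) (F : List (ℝ × Diagram n)) (v : Derivation ℝ B B)
    (f g : B) : B :=
  ((S.dual fun a => v (S.x a)).Q F (inl f) (inl g)).snd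

/-- The closedness properties that follow from `F` being a universal symmetry. -/
def AffP.Closed (S : AffP J B) (F : List (ℝ × Diagram n)) : Prop :=
  (∀ f g h, cyc S.br (S.Q F) f g h = 0) ∧
    ∀ v, S.IsVF v → ∀ f g h, cyc S.br (S.D F v) f g h = 0

/-! ### Darboux coordinates -/

/-- A Darboux coordinate system: `{f, g} = ∑ s_i (E_i f) (E_{τ i} g)` with `s_i = 0, ±1`.  The
indices with `s_i ≠ 0` are the leaf directions, the other ones are transverse. -/
structure Darb (S : AffP J B) extends Frame J B where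
  s : J → ℝ
  τ : J → J
  hτ : ∀ i, τ (τ i) = i
  hs : ∀ i, s i = 0 ∨ s i = 1 ∨ s i = -1
  hsτ : ∀ i, s (τ i) = - s i
  hE : ∀ i, S.IsVF (E i)
  hbr : ∀ f g, S.br f g = ∑ i, s i • (E i f * E (τ i) g)

/-- the set of leaf directions -/
noncomputable def Darb.L {S : AffP J B} (D : Darb S) : Finset J :=
  Finset.univ.filter fun i => D.s i ≠ 0

/-- `V = ½ ∑_{i ∈ L} ψ_i E_i`, with `L_V P = - P` -/
noncomputable def Darb.V {S : AffP J B} (D : Darb S) : Derivation ℝ B B :=
  ∑ i ∈ D.L, ((1 / 2 : ℝ) • D.ψ i) • D.E i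

/-- `a = ½ ∑ s_i ψ_{τ i} dψ_i`, with `V = P^♯ a` -/
noncomputable def Darb.a {S : AffP J B} (D : Darb S) (i : J) : B :=
  (D.s i / 2) • D.ψ (D.τ i)

/-- An operator on vector fields, given by its matrix in the Darboux frame. -/
noncomputable def Darb.op {S : AffP J B} (D : Darb S) (T : J → J → Module.End ℝ B)
    (v : Derivation ℝ B B) : Derivation ℝ B B :=
  ∑ j, (∑ k, T j k (v (D.ψ k))) • D.E j

/-- A function valued operator on vector fields, given by its components in the Darboux frame. -/
noncomputable def Darb.op1 {S : AffP J B} (D : Darb S) (T : J → Module.End ℝ B)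
    (v : Derivation ℝ B B) : B :=
  ∑ k, T k (v (D.ψ k))

/-- Darboux coordinates together with a differential operator `β` on vector fields such that
`𝒟 = ∂_P β` and the differential operator `m` with `β(X_f) + i_{df} Q = ∂_P m(f)`. -/
structure PDat (F : List (ℝ × Diagram n)) (S : AffP J B) extends Darb S where
  βop : J → J → Module.End ℝ B
  m : Module.End ℝ B
  hL : 3 ≤ (toDarb.L).card
  hβ : ∀ j k, βop j k ∈ DOalg E
  hm : m ∈ DOalg E
  hQ : ∀ f g h, cyc S.br (S.Q F) f g h = 0
  hβeq : ∀ v, S.IsVF v → ∀ f g, lieB (toDarb.op βop v) S.br f g = S.D F v f g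
  hmeq : ∀ f g, toDarb.op βop (S.ham f) g + S.Q F f g = S.br (m f) g

variable {F : List (ℝ × Diagram n)} {S : AffP J B}

/-- the operator `β` -/
noncomputable def PDat.β (D : PDat F S) (v : Derivation ℝ B B) : Derivation ℝ B B :=
  D.toDarb.op D.βop v

/-- the components of `Y = β(V) + i_a Q` -/
noncomputable def PDat.Y (D : PDat F S) (k : J) : B :=
  D.β D.V (D.ψ k) + ∑ l, D.a l * S.Q F (D.ψ l) (D.ψ k)

/-- the local primitive: `X^k = Y^k / (n - 1 - [k ∈ L])` -/
noncomputable def PDat.X (D : PDat F S) : Derivation ℝ B B :=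
  ∑ k, (((n : ℝ) - 1 - if k ∈ D.L then 1 else 0)⁻¹ • D.Y k) • D.E k

/-- there are no natural Casimir functions -/
def PDat.Cas (D : PDat F S) : Prop :=
  ∀ f, (∀ g, S.br f g = 0) → D.m f + D.X f = 0

/-- `G` is the comparison function of the two data: a Hamiltonian of the difference `X' - X` -/
def IsG (D D' : PDat F S) (G : B) : Prop :=
  ∃ (μ : J → Module.End ℝ B) (f : B), (∀ k, μ k ∈ DOalg D.E) ∧
    (∀ v, S.IsVF v → ∀ h, D'.β v h - D.β v h = S.br (D.op1 μ v) h) ∧
    (∀ h, D'.V h - D.V h = S.br f h) ∧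
    ((n : ℝ) - 2) • G = D.op1 μ D'.V + D.m f + D.X f + ∑ l, D.a l * D.X (D.ψ l)
      - ∑ l, D'.a l * D.X (D'.ψ l)

/-! ### morphisms -/

variable {C : Type} [CommRing C] [Algebra ℝ C]

/-- A morphism of affine Poisson algebras: everything that is used of a restriction map (or of an
affine change of the coordinates). -/
structure Mor (F : List (ℝ × Diagram n)) (S : AffP J B) (S' : AffP J C) (ρ : B →ₐ[ℝ] C) : Prop where
  br : ∀ f g, ρ (S.br f g) = S'.br (ρ f) (ρ g)
  Q : ∀ f g, ρ (S.Q F f g) = S'.Q F (ρ f) (ρ g)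
  D : ∀ v v', S.IsVF v → S'.IsVF v' → (∀ f, v' (ρ f) = ρ (v f)) →
    ∀ f g, ρ (S.D F v f g) = S'.D F v' (ρ f) (ρ g)
  push : ∀ v, S.IsVF v → ∃ v', S'.IsVF v' ∧ ∀ f, v' (ρ f) = ρ (v f)
  inj : ∀ v', S'.IsVF v' → (∀ f, v' (ρ f) = 0) → v' = 0

/-- An affine morphism: `ρ(x_a) = ∑ N_ab x'_b + c_a`, `∂'_b ρ(f) = ∑ N_ab ρ(∂_a f)` and
`ρ(P^{ab}) = ∑ N_ac N_bd P'^{cd}`. -/
def IsAffHom (S : AffP J B) (S' : AffP J C) (ρ : B →ₐ[ℝ] C) : Prop :=
  ∃ (N : Matrix J J ℝ) (c : J → ℝ), IsUnit N.det ∧
    (∀ a, ρ (S.x a) = ∑ b, N a b • S'.x b + algebraMap ℝ C (c a)) ∧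
    (∀ b f, S'.d b (ρ f) = ∑ a, N a b • ρ (S.d a f)) ∧
    ∀ a b, ρ (S.P a b) = ∑ c, ∑ d, (N a c * N b d) • S'.P c d

/-- `D'` is the pull back of the data `D` along `ρ` -/
structure IsPull (ρ : B →ₐ[ℝ] C) {S : AffP J B} {S' : AffP J C} (D : PDat F S) (D' : PDat F S') :
    Prop where
  s : D'.s = D.s
  τ : D'.τ = D.τ
  ψ : ∀ i, D'.ψ i = ρ (D.ψ i)
  E : ∀ i f, D'.E i (ρ f) = ρ (D.E i f)
  βop : ∀ j k f, D'.βop j k (ρ f) = ρ (D.βop j k f)
  m : ∀ f, D'.m (ρ f) = ρ (D.m f)

/-! ### affine structures from Darboux coordinates -/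

theorem der_sum_apply {α : Type} (t : Finset α) (D : α → Derivation ℝ B B) (f : B) :
    (∑ i ∈ t, D i) f = ∑ i ∈ t, D i f := by
  classical
  induction t using Finset.induction_on with
  | empty => simp
  | insert a t ha ih => rw [Finset.sum_insert ha, Finset.sum_insert ha, Derivation.add_apply, ih]

omit [DecidableEq J] in
theorem der_comb_apply (K : J → B) (E : J → Derivation ℝ B B) (f : B) :
    (∑ j, K j • E j) f = ∑ j, K j * E j f := by
  rw [der_sum_apply]
  rfl

theorem inv_swap (E : J → Derivation ℝ B B) (x : J → B) (K : J → J → B)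
    (hK : ∀ a b, ∑ j, K a j * E j (x b) = if a = b then 1 else 0) (i j : J) :
    ∑ b, E i (x b) * K b j = if i = j then 1 else 0 := by
  have h1 : (Matrix.of K) * (Matrix.of fun j b => E j (x b)) = 1 := by
    ext a b
    rw [Matrix.mul_apply, Matrix.one_apply]
    exact hK a b
  have h2 := mul_eq_one_comm.1 h1
  have h3 := congrFun (congrFun h2 i) j
  rw [Matrix.mul_apply, Matrix.one_apply] at h3
  exact h3

theorem darb_commute (E : J → Derivation ℝ B B) (hEE : ∀ i j f, E i (E j f) = E j (E i f))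
    (x : J → B) (K : J → J → B)
    (hK : ∀ a b, ∑ j, K a j * E j (x b) = if a = b then 1 else 0) (a b : J) (f : B) :
    (∑ j, K a j • E j) ((∑ j, K b j • E j) f) = (∑ j, K b j • E j) ((∑ j, K a j • E j) f) := by
  obtain ⟨w, hwdef⟩ : ∃ w : J → B, ∀ j, w j = ∑ i, (K a i * E i (K b j) - K b i * E i (K a j)) :=
    ⟨_, fun _ => rfl⟩
  have key : ∀ g, (∑ j, K a j • E j) ((∑ j, K b j • E j) g)
      - (∑ j, K b j • E j) ((∑ j, K a j • E j) g) = ∑ j, w j * E j g := by
    intro g
    have e1 : ∀ K₁ K₂ : J → B, (∑ j, K₁ j • E j) ((∑ j, K₂ j • E j) g)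
        = ∑ i, ∑ j, K₁ i * (K₂ j * E i (E j g)) + ∑ j, (∑ i, K₁ i * E i (K₂ j)) * E j g := by
      intro K₁ K₂
      rw [der_comb_apply, der_comb_apply]
      simp only [map_sum, Derivation.leibniz, smul_eq_mul, Finset.mul_sum, mul_add,
        Finset.sum_add_distrib, Finset.sum_mul]
      congr 1
      rw [Finset.sum_comm]
      exact Finset.sum_congr rfl fun i _ => Finset.sum_congr rfl fun j _ => by ring
    rw [e1, e1]
    have h1 : ∑ i, ∑ j, K a i * (K b j * E i (E j g)) = ∑ i, ∑ j, K b i * (K a j * E i (E j g)) := by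
      rw [Finset.sum_comm]
      refine Finset.sum_congr rfl fun i _ => Finset.sum_congr rfl fun j _ => ?_
      rw [hEE j i]
      ring
    rw [h1, add_sub_add_left_eq_sub, ← Finset.sum_sub_distrib]
    refine Finset.sum_congr rfl fun j _ => ?_
    rw [hwdef, Finset.sum_sub_distrib, sub_mul]
  have hw : ∀ k, w k = 0 := by
    intro k
    have hx : ∀ c, ∑ j, w j * E j (x c) = 0 := by
      intro c
      rw [← key (x c)]
      have h1 : (∑ j, K b j • E j) (x c) = if b = c then 1 else 0 := by
        rw [der_comb_apply]; exact hK b c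
      have h2 : (∑ j, K a j • E j) (x c) = if a = c then 1 else 0 := by
        rw [der_comb_apply]; exact hK a c
      rw [h1, h2]
      split_ifs <;> simp
    have h4 : ∑ c, (∑ j, w j * E j (x c)) * K c k = 0 := by
      simp only [hx, zero_mul, Finset.sum_const_zero]
    have h5 : ∑ c, (∑ j, w j * E j (x c)) * K c k = ∑ j, w j * ∑ c, E j (x c) * K c k := by
      simp only [Finset.sum_mul, Finset.mul_sum]
      rw [Finset.sum_comm]
      exact Finset.sum_congr rfl fun j _ => Finset.sum_congr rfl fun c _ => by ring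
    rw [h5] at h4
    simpa [inv_swap E x K hK] using h4
  have := key f
  simp only [hw, zero_mul, Finset.sum_const_zero] at this
  exact sub_eq_zero.1 this

/-- New coordinates `x` with invertible Jacobian `E_j x_b` (inverse matrix `K`) on an algebra with
commuting derivations `E` and the bracket `∑ s_i (E_i f) (E_{τ i} g)`. -/
noncomputable def AffP.ofDarb (E : J → Derivation ℝ B B) (hEE : ∀ i j f, E i (E j f) = E j (E i f))
    (s : J → ℝ) (τ : J → J) (hτ : ∀ i, τ (τ i) = i) (hsτ : ∀ i, s (τ i) = - s i)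
    (x : J → B) (K : J → J → B)
    (hK : ∀ a b, ∑ j, K a j * E j (x b) = if a = b then 1 else 0) : AffP J B where
  d a := ∑ j, K a j • E j
  x := x
  P a b := ∑ i, s i • (E i (x a) * E (τ i) (x b))
  hdx a b := by
    rw [der_comb_apply]
    exact hK a b
  hdd a b f := darb_commute E hEE x K hK a b f
  hanti a b := by
    rw [← Finset.sum_neg_distrib]
    refine Finset.sum_nbij' τ τ (by simp) (by simp) (by simp [hτ]) (by simp [hτ]) ?_
    intro i _
    rw [hτ, hsτ, neg_smul, neg_neg, mul_comm]

end E214
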