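import Pool.Agent.Work.MP_e214ac_gt.Alg

/-!
# The algebra of smooth functions on an open set (fixed file)
-/

set_option autoImplicit false

open scoped ContDiff Topology

namespace E214

open TopologicalSpace

variable {E : Type} [NormedAddCommGroup E] [NormedSpace ℝ E]

/-- extension by zero -/
noncomputable def ext0 (W : Opens E) (f : W → ℝ) (y : E) : ℝ := by
  classical exact if h : y ∈ W then f ⟨y, h⟩ else 0

omit [NormedSpace ℝ E] in
theorem ext0_of_mem {W : Opens E} (f : W → ℝ) {y : E} (h : y ∈ W) : ext0 W f y = f ⟨y, h⟩ := by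
  unfold ext0; exact dif_pos h

omit [NormedSpace ℝ E] in
theorem ext0_coe {W : Opens E} (f : W → ℝ) (x : W) : ext0 W f x = f x := ext0_of_mem f x.2

/-- Smooth functions on the open set `W`. -/
def Sm (W : Opens E) : Subalgebra ℝ (W → ℝ) where
  carrier := {f | ContDiffOn ℝ ∞ (ext0 W f) W}
  mul_mem' := by
    intro f g hf hg
    refine (hf.mul hg).congr fun y hy => ?_
    simp only [ext0_of_mem _ (show y ∈ W from hy), Pi.mul_apply]
  add_mem' := by
    intro f g hf hg
    refine (hf.add hg).congr fun y hy => ?_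
    simp only [ext0_of_mem _ (show y ∈ W from hy), Pi.add_apply]
  algebraMap_mem' := by
    intro c
    refine (contDiffOn_const (c := c)).congr fun y hy => ?_
    rw [ext0_of_mem _ (show y ∈ W from hy)]
    rfl

theorem Sm.contDiffOn {W : Opens E} (f : Sm W) : ContDiffOn ℝ ∞ (ext0 W f.1) W := f.2

/-- The restriction of a total function that is smooth on `W`. -/
def Sm.mk {W : Opens E} (F : E → ℝ) (hF : ContDiffOn ℝ ∞ F W) : Sm W :=
  ⟨fun x => F x, hF.congr fun y hy => ext0_of_mem _ (show y ∈ W from hy)⟩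

@[simp] theorem Sm.mk_apply {W : Opens E} (F : E → ℝ) (hF : ContDiffOn ℝ ∞ F W) (x : W) :
    (Sm.mk F hF).1 x = F x := rfl

theorem Sm.ext0_mk {W : Opens E} (F : E → ℝ) (hF : ContDiffOn ℝ ∞ F W) {y : E} (hy : y ∈ W) :
    ext0 W (Sm.mk F hF).1 y = F y := ext0_of_mem _ hy

theorem Sm.mk_ext0 {W : Opens E} (f : Sm W) : Sm.mk (ext0 W f.1) f.2 = f := by
  apply Subtype.ext
  funext x
  exact ext0_coe f.1 x

theorem Sm.ext {W : Opens E} {f g : Sm W} (h : ∀ x, f.1 x = g.1 x) : f = g :=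
  Subtype.ext (funext h)

/-- two functions that agree on `W` have the same derivative at the points of `W` -/
theorem fderiv_congr_on {W : Opens E} {F G : E → ℝ} (h : ∀ y ∈ W, F y = G y) {y : E} (hy : y ∈ W) :
    fderiv ℝ F y = fderiv ℝ G y := by
  apply Filter.EventuallyEq.fderiv_eq
  filter_upwards [W.isOpen.mem_nhds hy] with z hz using h z hz

theorem contDiffOn_fderiv_apply {W : Opens E} {F : E → ℝ} (hF : ContDiffOn ℝ ∞ F W) (v : E) :
    ContDiffOn ℝ ∞ (fun y => fderiv ℝ F y v) W :=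
  (hF.fderiv_of_isOpen W.isOpen (m := ∞) (by simp)).clm_apply contDiffOn_const

theorem Sm.differentiableAt {W : Opens E} (f : Sm W) {y : E} (hy : y ∈ W) :
    DifferentiableAt ℝ (ext0 W f.1) y :=
  (f.2.contDiffAt (W.isOpen.mem_nhds hy)).differentiableAt (by simp)

/-- the derivative in the direction `v` -/
noncomputable def Sm.dir {W : Opens E} (v : E) : Derivation ℝ (Sm W) (Sm W) :=
  Derivation.mk'
    { toFun := fun f => Sm.mk (fun y => fderiv ℝ (ext0 W f.1) y v) (contDiffOn_fderiv_apply f.2 v)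
      map_add' := fun f g => by
        apply Sm.ext
        intro x
        have h1 : fderiv ℝ (ext0 W (f + g).1) x = fderiv ℝ (ext0 W f.1 + ext0 W g.1) x :=
          fderiv_congr_on (fun y hy => by
            simp only [ext0_of_mem _ hy, Pi.add_apply]
            rfl) x.2
        change fderiv ℝ (ext0 W (f + g).1) x v
          = fderiv ℝ (ext0 W f.1) x v + fderiv ℝ (ext0 W g.1) x v
        rw [h1, fderiv_add (Sm.differentiableAt f x.2) (Sm.differentiableAt g x.2)]
        rfl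
      map_smul' := fun c f => by
        apply Sm.ext
        intro x
        have h1 : fderiv ℝ (ext0 W (c • f).1) x = fderiv ℝ (c • ext0 W f.1) x :=
          fderiv_congr_on (fun y hy => by
            simp only [ext0_of_mem _ hy, Pi.smul_apply]
            rfl) x.2
        change fderiv ℝ (ext0 W (c • f).1) x v = c • fderiv ℝ (ext0 W f.1) x v
        rw [h1, fderiv_const_smul (Sm.differentiableAt f x.2)]
        rfl }
    (fun f g => by
      apply Sm.ext
      intro x
      have h1 : fderiv ℝ (ext0 W (f * g).1) x = fderiv ℝ (ext0 W f.1 * ext0 W g.1) x :=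
        fderiv_congr_on (fun y hy => by
          simp only [ext0_of_mem _ hy, Pi.mul_apply]
          rfl) x.2
      change fderiv ℝ (ext0 W (f * g).1) x v
        = f.1 x * fderiv ℝ (ext0 W g.1) x v + g.1 x * fderiv ℝ (ext0 W f.1) x v
      rw [h1, fderiv_mul (Sm.differentiableAt f x.2) (Sm.differentiableAt g x.2)]
      simp [ext0_coe])

theorem Sm.dir_apply {W : Opens E} (v : E) (f : Sm W) (x : W) :
    (Sm.dir v f).1 x = fderiv ℝ (ext0 W f.1) x v := rfl

theorem Sm.dir_mk {W : Opens E} (v : E) (F : E → ℝ) (hF : ContDiffOn ℝ ∞ F W) (x : W) :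
    (Sm.dir v (Sm.mk F hF)).1 x = fderiv ℝ F x v := by
  rw [Sm.dir_apply, fderiv_congr_on (fun y hy => Sm.ext0_mk F hF hy) x.2]

theorem Sm.dir_comm {W : Opens E} (v w : E) (f : Sm W) :
    Sm.dir v (Sm.dir w f) = Sm.dir w (Sm.dir v f) := by
  apply Sm.ext
  intro x
  have hf : ContDiffAt ℝ ∞ (ext0 W f.1) x := f.2.contDiffAt (W.isOpen.mem_nhds x.2)
  have key : ∀ v w : E, (Sm.dir v (Sm.dir w f)).1 x
      = fderiv ℝ (fderiv ℝ (ext0 W f.1)) x v w := by
    intro v w
    have hd : DifferentiableAt ℝ (fderiv ℝ (ext0 W f.1)) x :=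
      (hf.fderiv_right (m := 1) (by norm_cast)).differentiableAt (by simp)
    have h2 : fderiv ℝ (fun y => fderiv ℝ (ext0 W f.1) y w) x v
        = fderiv ℝ (fderiv ℝ (ext0 W f.1)) x v w := by
      rw [fderiv_clm_apply hd (differentiableAt_const w)]
      simp
    rw [Sm.dir_apply, fderiv_congr_on (G := fun y => fderiv ℝ (ext0 W f.1) y w) (fun y hy => by
      rw [ext0_of_mem _ hy, Sm.dir_apply]) x.2, h2]
  rw [key, key]
  exact (hf.isSymmSndFDerivAt (by simp; exact ENat.LEInfty.out)).eq v w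

variable {E' : Type} [NormedAddCommGroup E'] [NormedSpace ℝ E']

/-- composition with a smooth map `θ : W' → W` -/
noncomputable def Sm.comp {W : Opens E} {W' : Opens E'} (θ : E' → E)
    (hθ : ContDiffOn ℝ ∞ θ W') (hm : ∀ z ∈ W', θ z ∈ W) : Sm W →ₐ[ℝ] Sm W' where
  toFun f := ⟨fun z => f.1 ⟨θ z, hm z z.2⟩, by
    refine ContDiffOn.congr (f.2.comp hθ (fun z hz => hm z hz)) fun z hz => ?_
    rw [ext0_of_mem _ (show z ∈ W' from hz), Function.comp_apply,
      ext0_of_mem _ (hm z hz)]⟩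
  map_one' := rfl
  map_mul' _ _ := rfl
  map_zero' := rfl
  map_add' _ _ := rfl
  commutes' _ := rfl

@[simp] theorem Sm.comp_apply {W : Opens E} {W' : Opens E'} (θ : E' → E)
    (hθ : ContDiffOn ℝ ∞ θ W') (hm : ∀ z ∈ W', θ z ∈ W) (f : Sm W) (z : W') :
    (Sm.comp θ hθ hm f).1 z = f.1 ⟨θ z, hm z z.2⟩ := rfl

/-- chain rule -/
theorem Sm.dir_comp {W : Opens E} {W' : Opens E'} (θ : E' → E)
    (hθ : ContDiffOn ℝ ∞ θ W') (hm : ∀ z ∈ W', θ z ∈ W) (f : Sm W) (v : E') (z : W') :
    (Sm.dir v (Sm.comp θ hθ hm f)).1 z = fderiv ℝ (ext0 W f.1) (θ z) (fderiv ℝ θ z v) := by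
  have hθz : DifferentiableAt ℝ θ z :=
    (hθ.contDiffAt (W'.isOpen.mem_nhds z.2)).differentiableAt (by simp)
  rw [Sm.dir_apply, fderiv_congr_on (G := ext0 W f.1 ∘ θ) (fun y hy => by
    rw [ext0_of_mem _ hy, Sm.comp_apply, Function.comp_apply, ext0_of_mem _ (hm y hy)]) z.2,
    fderiv_comp _ (Sm.differentiableAt f (hm z z.2)) hθz]
  rfl

/-- a smooth function without zeros is invertible -/
theorem Sm.exists_inv {W : Opens E} (f : Sm W) (hf : ∀ x, f.1 x ≠ 0) : ∃ g : Sm W, f * g = 1 := by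
  refine ⟨Sm.mk (fun y => (ext0 W f.1 y)⁻¹) (f.2.inv fun y hy => ?_), ?_⟩
  · rw [ext0_of_mem _ (show y ∈ W from hy)]; exact hf _
  · apply Sm.ext
    intro x
    change f.1 x * (ext0 W f.1 x)⁻¹ = 1
    rw [ext0_coe]
    exact mul_inv_cancel₀ (hf x)

end E214
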