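import Pool.Agent.Work.MP_e214ac_gt.Sm

/-!
# Affine structures on algebras of smooth functions (definitions, fixed file)
-/

set_option autoImplicit false

open scoped ContDiff Topology

namespace E214

open TopologicalSpace

variable {J : Type} [Fintype J] [DecidableEq J]

section algebra

variable {B : Type} [CommRing B] [Algebra ℝ B]

theorem ofDarb_expand (E : J → Derivation ℝ B B) (hEE : ∀ i j f, E i (E j f) = E j (E i f))
    (s : J → ℝ) (τ : J → J) (hτ : ∀ i, τ (τ i) = i) (hsτ : ∀ i, s (τ i) = - s i)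
    (x : J → B) (K : J → J → B)
    (hK : ∀ a b, ∑ j, K a j * E j (x b) = if a = b then 1 else 0) (i : J) (f : B) :
    E i f = ∑ a, E i (x a) * (AffP.ofDarb E hEE s τ hτ hsτ x K hK).d a f := by
  have h1 : ∀ a, (AffP.ofDarb E hEE s τ hτ hsτ x K hK).d a f = ∑ j, K a j * E j f := by
    intro a
    exact der_comb_apply (K a) E f
  simp only [h1, Finset.mul_sum]
  rw [Finset.sum_comm]
  have h2 : ∀ j, ∑ a, E i (x a) * (K a j * E j f) = (if i = j then 1 else 0) * E j f := by
    intro j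
    rw [← inv_swap E x K hK i j, Finset.sum_mul]
    exact Finset.sum_congr rfl fun a _ => by ring
  simp [h2]

/-- The Darboux coordinates of `AffP.ofDarb`. -/
noncomputable def Darb.std (fr : Frame J B) (s : J → ℝ) (τ : J → J) (hτ : ∀ i, τ (τ i) = i)
    (hsτ : ∀ i, s (τ i) = - s i) (hs : ∀ i, s i = 0 ∨ s i = 1 ∨ s i = -1)
    (x : J → B) (K : J → J → B)
    (hK : ∀ a b, ∑ j, K a j * fr.E j (x b) = if a = b then 1 else 0) :
    Darb (AffP.ofDarb fr.E fr.hEE s τ hτ hsτ x K hK) where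
  E := fr.E
  ψ := fr.ψ
  hEψ := fr.hEψ
  hEE := fr.hEE
  s := s
  τ := τ
  hτ := hτ
  hs := hs
  hsτ := hsτ
  hE i f := ofDarb_expand fr.E fr.hEE s τ hτ hsτ x K hK i f
  hbr f g := by
    have h1 : ∀ i, s i • (fr.E i f * fr.E (τ i) g) = ∑ a, ∑ b, (s i •
        (fr.E i (x a) * fr.E (τ i) (x b))) *
          (AffP.ofDarb fr.E fr.hEE s τ hτ hsτ x K hK).d a f *
          (AffP.ofDarb fr.E fr.hEE s τ hτ hsτ x K hK).d b g := by
      intro i
      rw [ofDarb_expand fr.E fr.hEE s τ hτ hsτ x K hK i f,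
        ofDarb_expand fr.E fr.hEE s τ hτ hsτ x K hK (τ i) g, Finset.sum_mul_sum,
        Finset.smul_sum]
      refine Finset.sum_congr rfl fun a _ => ?_
      rw [Finset.smul_sum]
      refine Finset.sum_congr rfl fun b _ => ?_
      simp only [smul_mul_assoc]
      congr 1
      ring
    simp only [h1]
    rw [Finset.sum_comm]
    refine Finset.sum_congr rfl fun a _ => ?_
    rw [Finset.sum_comm]
    refine Finset.sum_congr rfl fun b _ => ?_
    change (∑ i, s i • (fr.E i (x a) * fr.E (τ i) (x b))) * _ * _ = _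
    rw [Finset.sum_mul, Finset.sum_mul]

end algebra

/-- partial derivatives of smooth functions on an open subset of `ℝ^J` -/
noncomputable def smd {W : Opens (J → ℝ)} (a : J) : Derivation ℝ (Sm W) (Sm W) :=
  Sm.dir (Pi.single a 1)

/-- coordinate functions -/
noncomputable def smx {W : Opens (J → ℝ)} (a : J) : Sm W :=
  Sm.mk (fun y => y a) (contDiff_apply ℝ ℝ a).contDiffOn

theorem smd_smx {W : Opens (J → ℝ)} (a b : J) :
    smd (W := W) a (smx b) = if a = b then 1 else 0 := by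
  apply Sm.ext
  intro x
  have h : HasFDerivAt (fun y : J → ℝ => y b) (ContinuousLinearMap.proj b : (J → ℝ) →L[ℝ] ℝ) x :=
    (ContinuousLinearMap.proj b : (J → ℝ) →L[ℝ] ℝ).hasFDerivAt
  have h2 : (smd a (smx b) : Sm W).1 x = fderiv ℝ (fun y : J → ℝ => y b) x (Pi.single a 1) :=
    Sm.dir_mk _ _ _ x
  rw [h2, h.fderiv]
  by_cases hab : a = b
  · subst hab
    rw [if_pos rfl]
    simp
  · rw [if_neg hab]
    simp [Pi.single_apply, Ne.symm hab]

/-- the frame of the standard coordinates -/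
noncomputable def smFrame (W : Opens (J → ℝ)) : Frame J (Sm W) where
  E := smd
  ψ := smx
  hEψ := smd_smx
  hEE i j f := Sm.dir_comm _ _ f

/-- the standard affine structure on `W ⊆ ℝ^J` with a bivector `P` -/
noncomputable def stdAff (W : Opens (J → ℝ)) (P : J → J → Sm W) (hP : ∀ a b, P a b = - P b a) :
    AffP J (Sm W) where
  d := smd
  x := smx
  P := P
  hdx := smd_smx
  hdd a b f := Sm.dir_comm _ _ f
  hanti := hP

/-- The model: Darboux coordinates = standard coordinates of `W ⊆ ℝ^J`, affine coordinates `φ`. -/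
noncomputable def modelAff (W : Opens (J → ℝ)) (s : J → ℝ) (τ : J → J) (hτ : ∀ i, τ (τ i) = i)
    (hsτ : ∀ i, s (τ i) = - s i) (φ : J → Sm W) (K : J → J → Sm W)
    (hK : ∀ a b, ∑ j, K a j * smd j (φ b) = if a = b then 1 else 0) : AffP J (Sm W) :=
  AffP.ofDarb (smFrame W).E (smFrame W).hEE s τ hτ hsτ φ K hK

/-- the Darboux coordinates of the model -/
noncomputable def modelDarb (W : Opens (J → ℝ)) (s : J → ℝ) (τ : J → J) (hτ : ∀ i, τ (τ i) = i)
    (hsτ : ∀ i, s (τ i) = - s i) (hs : ∀ i, s i = 0 ∨ s i = 1 ∨ s i = -1)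
    (φ : J → Sm W) (K : J → J → Sm W)
    (hK : ∀ a b, ∑ j, K a j * smd j (φ b) = if a = b then 1 else 0) :
    Darb (modelAff W s τ hτ hsτ φ K hK) :=
  Darb.std (smFrame W) s τ hτ hsτ hs φ K hK

/-- `F` (homogeneous of degree `n`) is a symmetry for functions on `ℝ^J` -/
def IsSymHom (J : Type) [Fintype J] [DecidableEq J] {n : ℕ} (F : List (ℝ × Diagram n)) : Prop :=
  ∀ (U : Set (J → ℝ)) (P : J → J → (J → ℝ) → ℝ), IsOpen U → IsPoissonOn P U →
    ∀ i j k, ∀ y ∈ U, schouten P (fun a b => evalHom F pd P a b) i j k y = 0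

end E214
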