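import Pool.Agent.Work.MP_e214ac_gt.RDefs

/-!
# The manifold level (definitions, fixed file)

`M` is an affine manifold with an atlas of charts to `ℝ^r`, `P` a bivector field.  Everything local
happens on open subsets `W` of `ℝ^r × ℝ^4 = ℝ^(JJ r)`, for the bivector `P ⊕ P₀₀` where `P₀₀` is
the constant symplectic bivector of `ℝ^4`.
-/

set_option autoImplicit false

open scoped ContDiff Topology

namespace E214

open TopologicalSpace

variable {r : ℕ}

/-- indices of `ℝ^r × ℝ^4` -/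
abbrev JJ (r : ℕ) : Type := Fin r ⊕ Fin 4

def tau4 : Fin 4 → Fin 4 := ![1, 0, 3, 2]

def s4 : Fin 4 → ℝ := ![1, -1, 1, -1]

def baseP (z : JJ r → ℝ) : Fin r → ℝ := fun i => z (Sum.inl i)

def fibP (z : JJ r → ℝ) : Fin 4 → ℝ := fun k => z (Sum.inr k)

def pt (y : Fin r → ℝ) (w : Fin 4 → ℝ) : JJ r → ℝ := Sum.elim y w

/-- the components of `P ⊕ P₀₀` -/
def Phat (P : Fin r → Fin r → (Fin r → ℝ) → ℝ) : JJ r → JJ r → (JJ r → ℝ) → ℝ
  | Sum.inl i, Sum.inl j => fun z => P i j (baseP z)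
  | Sum.inr i, Sum.inr j => fun _ => if j = tau4 i then s4 i else 0
  | _, _ => fun _ => 0

theorem baseP_pt (y : Fin r → ℝ) (w : Fin 4 → ℝ) : baseP (pt y w) = y := rfl

theorem fibP_pt (y : Fin r → ℝ) (w : Fin 4 → ℝ) : fibP (pt y w) = w := rfl

theorem pt_base_fib (z : JJ r → ℝ) : pt (baseP z) (fibP z) = z := by
  funext a
  cases a <;> rfl

theorem contDiff_baseP : ContDiff ℝ ∞ (baseP : (JJ r → ℝ) → (Fin r → ℝ)) :=
  contDiff_pi.2 fun i => contDiff_apply ℝ ℝ (Sum.inl i)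

variable {M : Type} [TopologicalSpace M] [ChartedSpace (Fin r → ℝ) M]

theorem Phat_smooth (P : BivectorField r M) (e : OpenPartialHomeomorph M (Fin r → ℝ))
    (he : e ∈ atlas (Fin r → ℝ) M) (W : Opens (JJ r → ℝ)) (hW : ∀ z ∈ W, baseP z ∈ e.target)
    (a b : JJ r) : ContDiffOn ℝ ∞ (Phat (P.comp e) a b) W := by
  rcases a with i | i <;> rcases b with j | j
  · exact (P.smooth e he i j).comp contDiff_baseP.contDiffOn (fun z hz => hW z hz)
  · exact contDiffOn_const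
  · exact contDiffOn_const
  · exact contDiffOn_const

theorem Phat_anti (P : BivectorField r M) (e : OpenPartialHomeomorph M (Fin r → ℝ))
    (he : e ∈ atlas (Fin r → ℝ) M) (a b : JJ r) (z : JJ r → ℝ) (hz : baseP z ∈ e.target) :
    Phat (P.comp e) a b z = - Phat (P.comp e) b a z := by
  rcases a with i | i <;> rcases b with j | j
  · exact P.anti e he i j _ hz
  · simp [Phat]
  · simp [Phat]
  · change (if j = tau4 i then s4 i else 0) = -(if i = tau4 j then s4 j else 0)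
    fin_cases i <;> fin_cases j <;> simp [tau4, s4]

/-- The affine structure on `Sm W` given by the chart `e` and `P ⊕ P₀₀`. -/
noncomputable def locAff (P : BivectorField r M) (e : OpenPartialHomeomorph M (Fin r → ℝ))
    (he : e ∈ atlas (Fin r → ℝ) M) (W : Opens (JJ r → ℝ)) (hW : ∀ z ∈ W, baseP z ∈ e.target) :
    AffP (JJ r) (Sm W) :=
  stdAff W (fun a b => Sm.mk (Phat (P.comp e) a b) (Phat_smooth P e he W hW a b))
    (fun a b => Sm.ext fun z => Phat_anti P e he a b z (hW z z.2))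

/-- Local data: Darboux coordinates `ψ` on the open set `O ⊆ M`, an affine structure `φ` on the model
`ℝ^(JJ r)` which corresponds to the affine coordinates `e` near `ψ(O) × 0`, and the operators
`β`, `m` on the model. -/
structure Loc (P : BivectorField r M) {n : ℕ} (F : List (ℝ × Diagram n)) where
  e : OpenPartialHomeomorph M (Fin r → ℝ)
  he : e ∈ atlas (Fin r → ℝ) M
  O : Set M
  hO : IsOpen O
  hOe : O ⊆ e.source
  ε : ℝ
  hε : 0 < ε
  ψ : M → Fin r → ℝ
  hψ : ContDiffOn ℝ ∞ (fun y => ψ (e.symm y)) (e.target ∩ e.symm ⁻¹' O)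
  s : JJ r → ℝ
  τ : JJ r → JJ r
  hτ : ∀ i, τ (τ i) = i
  hsτ : ∀ i, s (τ i) = - s i
  hs : ∀ i, s i = 0 ∨ s i = 1 ∨ s i = -1
  φ : JJ r → Sm (⊤ : Opens (JJ r → ℝ))
  K : JJ r → JJ r → Sm (⊤ : Opens (JJ r → ℝ))
  hK : ∀ a b, ∑ j, K a j * smd j (φ b) = if a = b then 1 else 0
  hφ : ∀ p ∈ O, ∀ w : Fin 4 → ℝ, (∀ k, |w k| < ε) → ∀ a,
    (φ a).1 ⟨pt (ψ p) w, trivial⟩ = pt (e p) w a
  hP : ∀ y ∈ e.target ∩ e.symm ⁻¹' O, ∀ (w : Fin 4 → ℝ) (i j : JJ r),
    ∑ a, ∑ b, Phat (P.comp e) a b (pt y w) *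
      pd a (fun z => pt (ψ (e.symm (baseP z))) (fibP z) i) (pt y w) *
      pd b (fun z => pt (ψ (e.symm (baseP z))) (fibP z) j) (pt y w) = if j = τ i then s i else 0
  D : PDat F (modelAff ⊤ s τ hτ hsτ φ K hK)
  hD : D.Cas

variable {P : BivectorField r M} {n : ℕ} {F : List (ℝ × Diagram n)}

/-- the map `(y, w) ↦ (ψ(e'⁻¹ y), w)` -/
noncomputable def Loc.θ (α : Loc P F) (e' : OpenPartialHomeomorph M (Fin r → ℝ))
    (z : JJ r → ℝ) : JJ r → ℝ :=
  pt (α.ψ (e'.symm (baseP z))) (fibP z)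

/-- The open set `W` (in the coordinates of the chart `e'`) is adapted to `α`. -/
structure Good (α : Loc P F) (e' : OpenPartialHomeomorph M (Fin r → ℝ))
    (W : Opens (JJ r → ℝ)) : Prop where
  target : ∀ z ∈ W, baseP z ∈ e'.target
  mem : ∀ z ∈ W, e'.symm (baseP z) ∈ α.O
  small : ∀ z ∈ W, ∀ k, |fibP z k| < α.ε
  affine : ∃ (A : Matrix (Fin r) (Fin r) ℝ) (b : Fin r → ℝ), IsUnit A.det ∧
    ∀ z ∈ W, α.e (e'.symm (baseP z)) = A.mulVec (baseP z) + b

theorem Good.mono {α : Loc P F} {e' : OpenPartialHomeomorph M (Fin r → ℝ)}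
    {W W' : Opens (JJ r → ℝ)} (h : Good α e' W) (hW : W' ≤ W) : Good α e' W' where
  target z hz := h.target z (hW hz)
  mem z hz := h.mem z (hW hz)
  small z hz := h.small z (hW hz)
  affine := by
    obtain ⟨A, b, hA, hb⟩ := h.affine
    exact ⟨A, b, hA, fun z hz => hb z (hW hz)⟩

theorem Loc.θ_smooth (α : Loc P F) {e' : OpenPartialHomeomorph M (Fin r → ℝ)}
    {W : Opens (JJ r → ℝ)} (h : Good α e' W) : ContDiffOn ℝ ∞ (α.θ e') W := by
  obtain ⟨A, b, hA, hb⟩ := h.affine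
  refine contDiffOn_pi.2 fun a => ?_
  rcases a with i | k
  · have h1 : ContDiffOn ℝ ∞ (fun z : JJ r → ℝ => A.mulVec (baseP z) + b) W := by
      refine ContDiff.contDiffOn ?_
      refine contDiff_pi.2 fun a => ?_
      simp only [Matrix.mulVec, dotProduct, Pi.add_apply]
      refine ContDiff.add (ContDiff.sum fun c _ => contDiff_const.mul ?_) contDiff_const
      exact contDiff_apply ℝ ℝ (Sum.inl c)
    have h2 := (contDiffOn_pi.1 α.hψ i).comp h1 (fun z hz => by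
      rw [← hb z hz]
      have hm := α.hOe (h.mem z hz)
      refine ⟨α.e.map_source hm, ?_⟩
      change α.e.symm (α.e (e'.symm (baseP z))) ∈ α.O
      rw [α.e.left_inv hm]
      exact h.mem z hz)
    refine h2.congr fun z hz => ?_
    change α.ψ (e'.symm (baseP z)) i = α.ψ (α.e.symm (A.mulVec (baseP z) + b)) i
    rw [← hb z hz, α.e.left_inv (α.hOe (h.mem z hz))]
  · exact (contDiff_apply ℝ ℝ (Sum.inr k)).contDiffOn

/-- the homomorphism from the model to the functions on `W` -/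
noncomputable def Loc.ρ (α : Loc P F) {e' : OpenPartialHomeomorph M (Fin r → ℝ)}
    {W : Opens (JJ r → ℝ)} (h : Good α e' W) :
    Sm (⊤ : Opens (JJ r → ℝ)) →ₐ[ℝ] Sm W :=
  Sm.comp (α.θ e') (α.θ_smooth h) (fun _ _ => trivial)

/-- the model of `α` -/
noncomputable def Loc.S (α : Loc P F) : AffP (JJ r) (Sm (⊤ : Opens (JJ r → ℝ))) :=
  modelAff ⊤ α.s α.τ α.hτ α.hsτ α.φ α.K α.hK

end E214
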