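import Pool.Agent.Work.MP_e214ac_gt.M.Hom
import Pool.Agent.Work.MP_e214ac_gt.M.Parts
import Pool.Agent.Work.MP_e214ac_gt.M.SumX

/-!
# Main: universal symmetries are trivial on regular Poisson structures (assembly)
-/

set_option autoImplicit false

open scoped ContDiff Topology

namespace E214

theorem regular_trivial {r : ℕ} {M : Type} [TopologicalSpace M] [ChartedSpace (Fin r → ℝ) M]
    [T2Space M] [SigmaCompactSpace M] (hM : IsAffineManifold r M) (F : Formula)
    (hF : IsSymmetry F) (hdeg : ∀ c ∈ F, 3 ≤ c.2.1) (P : BivectorField r M) (hP : P.IsPoisson)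
    (hreg : P.IsRegular) :
    ∃ X : VectorField r M, ∀ e ∈ atlas (Fin r → ℝ) M, ∀ i j, ∀ y ∈ e.target,
      F.eval pd (P.comp e) i j y = schoutenVec (P.comp e) (X.comp e) i j y := by
  classical
  obtain ⟨N, hN⟩ : ∃ N : ℕ, ∀ c ∈ F, c.2.1 < N := by
    refine ⟨(F.map fun c => c.2.1).sum + 1, fun c hc => Nat.lt_succ_of_le ?_⟩
    exact List.single_le_sum (by simp) _ (List.mem_map_of_mem hc)
  have key : ∀ n : ℕ, ∃ Z : VectorField r M, ∀ e ∈ atlas (Fin r → ℝ) M, ∀ i j, ∀ y ∈ e.target,
      evalHom (part F n) pd (P.comp e) i j y = schoutenVec (P.comp e) (Z.comp e) i j y := by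
    intro n
    by_cases hn : 3 ≤ n
    · exact regular_hom hM P hP hreg (part F n) hn (isSymHom_part F hF n (JJ r))
    · obtain ⟨Z, hZ⟩ := exists_sum P ∅ (fun _ =>
        ⟨fun _ _ _ => 0, fun _ _ _ => contDiffOn_const, by simp⟩)
      refine ⟨Z, fun e he i j y hy => ?_⟩
      rw [hZ e he i j y hy, part_eq_nil F n (fun c hc h => hn (h ▸ hdeg c hc))]
      simp [evalHom]
  choose Z hZ using key
  obtain ⟨X, hX⟩ := exists_sum P (Finset.range N) Z
  refine ⟨X, fun e he i j y hy => ?_⟩
  rw [hX e he i j y hy, eval_parts F N hN pd (P.comp e) i j, Finset.sum_apply]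
  exact Finset.sum_congr rfl fun n _ => hZ n e he i j y hy

end E214
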