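import Mathlib

/-!
# Universal infinitesimal symmetries of Poisson brackets: statement level definitions

Everything that the final statement uses (`Results/MP_e214ac_gt/...`): contraction diagrams and
their values, Schouten brackets in coordinates, affine manifolds, bivector fields and vector fields
given by their components in the affine charts, regular bivectors.
-/

set_option autoImplicit false

open scoped ContDiff Topology

namespace E214

/-- A contraction diagram with `n` internal vertices.  A vertex `v` carries one copy of the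
bivector and has the two ordered outgoing edges `(v, 0)`, `(v, 1)` (its two upper indices).  An
edge either ends in an internal vertex (that copy of the bivector is differentiated along the
index of the edge; loops and multiple edges are allowed) or in one of the two sinks `0`, `1`
(free index).  Every sink is hit exactly once. -/
structure Diagram (n : ℕ) where
  tgt : Fin n × Fin 2 → Fin n ⊕ Fin 2
  sink : ∀ c : Fin 2, ∃! e : Fin n × Fin 2, tgt e = Sum.inr c

section eval

variable {n : ℕ} {J : Type} [Fintype J] [DecidableEq J] {R : Type} [CommRing R]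

/-- All edges, in a fixed order. -/
def edges (n : ℕ) : List (Fin n × Fin 2) := (List.finRange n) ×ˢ (List.finRange 2)

/-- The iterated derivative of `f` along the labels `I e` of all edges `e` that end in `v`. -/
def Diagram.der (D : Diagram n) (d : J → R → R) (I : Fin n × Fin 2 → J) (v : Fin n) (f : R) : R :=
  ((edges n).filter fun e => D.tgt e = Sum.inl v).foldr (fun e g => d (I e) g) f

/-- The value of the diagram: sum over all labellings of the edges by indices in which the edges
ending in the sinks `0`, `1` carry the free indices `i`, `j`; the product over the vertices of the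
differentiated components of `P`. -/
def Diagram.eval (D : Diagram n) (d : J → R → R) (P : J → J → R) (i j : J) : R :=
  ∑ I : Fin n × Fin 2 → J,
    if ∀ e, (D.tgt e = Sum.inr 0 → I e = i) ∧ (D.tgt e = Sum.inr 1 → I e = j) then
      ∏ v : Fin n, D.der d I v (P (I (v, 0)) (I (v, 1)))
    else 0

/-- The value of a homogeneous formula of degree `n` (a finite linear combination of diagrams with
`n` vertices), skew-symmetrised in the free indices. -/
def evalHom [Algebra ℝ R] (F : List (ℝ × Diagram n)) (d : J → R → R) (P : J → J → R) (i j : J) :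
    R :=
  (F.map fun c => c.1 • (c.2.eval d P i j - c.2.eval d P j i)).sum

/-- A universal formula: a finite linear combination of contraction diagrams, with arbitrary
numbers of vertices. -/
abbrev Formula : Type := List (ℝ × (Σ n : ℕ, Diagram n))

/-- The value of a universal formula, skew-symmetrised in the free indices (a bivector). -/
def Formula.eval [Algebra ℝ R] (F : Formula) (d : J → R → R) (P : J → J → R) (i j : J) : R :=
  (F.map fun c => c.1 • (c.2.2.eval d P i j - c.2.2.eval d P j i)).sum

end eval

section coordinates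

variable {J : Type} [Fintype J] [DecidableEq J]

/-- The partial derivative of a function on `J → ℝ`. -/
noncomputable def pd (a : J) (f : (J → ℝ) → ℝ) : (J → ℝ) → ℝ :=
  fun y => fderiv ℝ f y (Pi.single a 1)

/-- The components of (twice) the Schouten bracket `[[P, Q]]` of two bivectors. -/
noncomputable def schouten (P Q : J → J → (J → ℝ) → ℝ) (i j k : J) : (J → ℝ) → ℝ :=
  ∑ l, (P l k * pd l (Q i j) + P l i * pd l (Q j k) + P l j * pd l (Q k i)
      + Q l k * pd l (P i j) + Q l i * pd l (P j k) + Q l j * pd l (P k i))

/-- The components of the Schouten bracket `[[P, X]] = - L_X P` with a vector field. -/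
noncomputable def schoutenVec (P : J → J → (J → ℝ) → ℝ) (X : J → (J → ℝ) → ℝ) (i j : J) :
    (J → ℝ) → ℝ :=
  ∑ l, (P l j * pd l (X i) + P i l * pd l (X j) - X l * pd l (P i j))

/-- `P` is a smooth Poisson bivector on the open set `U`. -/
def IsPoissonOn (P : J → J → (J → ℝ) → ℝ) (U : Set (J → ℝ)) : Prop :=
  (∀ i j, ContDiffOn ℝ ∞ (P i j) U) ∧ (∀ i j, ∀ y ∈ U, P i j y = - P j i y) ∧
    ∀ i j k, ∀ y ∈ U, schouten P P i j k y = 0

end coordinates

/-- The formula `F` is a universal infinitesimal symmetry: `[[P, F(P)]] = 0` for every smooth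
Poisson bivector `P` on every open subset of every `ℝ^r`. -/
def IsSymmetry (F : Formula) : Prop :=
  ∀ (r : ℕ) (U : Set (Fin r → ℝ)) (P : Fin r → Fin r → (Fin r → ℝ) → ℝ), IsOpen U →
    IsPoissonOn P U → ∀ i j k, ∀ y ∈ U, schouten P (fun a b => F.eval pd P a b) i j k y = 0

section manifold

variable (r : ℕ) (M : Type) [TopologicalSpace M] [ChartedSpace (Fin r → ℝ) M]

/-- An affine manifold: the transition maps of the atlas are affine near every point. -/
def IsAffineManifold : Prop :=
  ∀ e ∈ atlas (Fin r → ℝ) M, ∀ e' ∈ atlas (Fin r → ℝ) M, ∀ p ∈ e.source ∩ e'.source,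
    ∃ (A : Matrix (Fin r) (Fin r) ℝ) (b : Fin r → ℝ), ∀ᶠ q in 𝓝 p, e' q = A.mulVec (e q) + b

/-- A smooth bivector field on an affine manifold, given by its components in the charts of the
atlas, as functions of the coordinates. -/
structure BivectorField where
  comp : OpenPartialHomeomorph M (Fin r → ℝ) → Fin r → Fin r → (Fin r → ℝ) → ℝ
  smooth : ∀ e ∈ atlas (Fin r → ℝ) M, ∀ i j, ContDiffOn ℝ ∞ (comp e i j) e.target
  anti : ∀ e ∈ atlas (Fin r → ℝ) M, ∀ i j, ∀ y ∈ e.target, comp e i j y = - comp e j i y
  compat : ∀ e ∈ atlas (Fin r → ℝ) M, ∀ e' ∈ atlas (Fin r → ℝ) M, ∀ p ∈ e.source ∩ e'.source,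
    ∀ i j, comp e' i j (e' p) = ∑ a, ∑ b, pd a (fun z => e' (e.symm z) i) (e p) *
      pd b (fun z => e' (e.symm z) j) (e p) * comp e a b (e p)

/-- A smooth vector field on an affine manifold, given by its components in the charts of the
atlas, as functions of the coordinates. -/
structure VectorField where
  comp : OpenPartialHomeomorph M (Fin r → ℝ) → Fin r → (Fin r → ℝ) → ℝ
  smooth : ∀ e ∈ atlas (Fin r → ℝ) M, ∀ i, ContDiffOn ℝ ∞ (comp e i) e.target
  compat : ∀ e ∈ atlas (Fin r → ℝ) M, ∀ e' ∈ atlas (Fin r → ℝ) M, ∀ p ∈ e.source ∩ e'.source,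
    ∀ i, comp e' i (e' p) = ∑ a, pd a (fun z => e' (e.symm z) i) (e p) * comp e a (e p)

variable {r M}

/-- `[[P, P]] = 0` on the whole manifold. -/
def BivectorField.IsPoisson (P : BivectorField r M) : Prop :=
  ∀ e ∈ atlas (Fin r → ℝ) M, ∀ i j k, ∀ y ∈ e.target, schouten (P.comp e) (P.comp e) i j k y = 0

/-- `P` is regular: near every point there are smooth coordinates `ψ` (smooth functions on an open
set `U` of the chart with invertible Jacobian at the point; not affine in general) in which the
components `{ψ_i, ψ_j}` of `P` are constant. -/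
def BivectorField.IsRegular (P : BivectorField r M) : Prop :=
  ∀ p : M, ∃ e ∈ atlas (Fin r → ℝ) M, p ∈ e.source ∧
    ∃ (U : Set (Fin r → ℝ)) (ψ : Fin r → (Fin r → ℝ) → ℝ) (c : Fin r → Fin r → ℝ),
      IsOpen U ∧ U ⊆ e.target ∧ e p ∈ U ∧ (∀ i, ContDiffOn ℝ ∞ (ψ i) U) ∧
      (Matrix.of fun i a => pd a (ψ i) (e p)).det ≠ 0 ∧
      ∀ y ∈ U, ∀ i j, ∑ a, ∑ b, P.comp e a b y * pd a (ψ i) y * pd b (ψ j) y = c i j

end manifold

end E214
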