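import Pool.Agent.Work.MP_e214ac_gt.Alg

/-!
# Symbols of differential operators (definitions, fixed file)
-/

set_option autoImplicit false

namespace E214

variable {J : Type} [Fintype J] [DecidableEq J] {B : Type} [CommRing B] [Algebra ℝ B]

/-- the derivation `D` as an element of `Module.End ℝ B` -/
def dEnd (D : Derivation ℝ B B) : Module.End ℝ B := (D : B →ₗ[ℝ] B)

/-- the multiplication by `c` as an element of `Module.End ℝ B` -/
def mEnd (c : B) : Module.End ℝ B := LinearMap.mulLeft ℝ c

/-- the iterated derivative `E^I` -/
noncomputable def Epow (E : J → Derivation ℝ B B) (I : J →₀ ℕ) : Module.End ℝ B :=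
  ((Finset.univ : Finset J).toList.map fun j => dEnd (E j) ^ (I j)).prod

/-- the operator `∑ c_I E^I` with the symbol `c` -/
noncomputable def act (E : J → Derivation ℝ B B) (c : MvPolynomial J B) : Module.End ℝ B :=
  ∑ I ∈ c.support, mEnd (c.coeff I) * Epow E I

/-- the derivation `D` applied to the coefficients of a polynomial -/
noncomputable def dcoef (D : Derivation ℝ B B) (c : MvPolynomial J B) : MvPolynomial J B :=
  ∑ I ∈ c.support, MvPolynomial.monomial I (D (c.coeff I))

/-- the monomial `ψ^I` -/
noncomputable def psiPow (ψ : J → B) (I : J →₀ ℕ) : B := ∏ j, ψ j ^ (I j)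

end E214
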